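import Mathlib
import Pool.Agent.P.MP_fdecab_lc.Defs
import Pool.Agent.P.MP_fdecab_lc.Main

set_option autoImplicit false

open FirstOrder FirstOrder.Language Pool.Agent.P.MP_fdecab_lc

universe u

theorem Pool.Agent.Results.MP_fdecab_lc.EdrpImpliesFpt.result :
    ∀ (L : FirstOrder.Language.{0, 0}) [L.IsRelational] (M : Type u) [L.Structure M],
      L.IsUltrahomogeneous M → EDRP L M → FPT L M :=
  fun L _ M _ hM hE => Pool.Agent.P.MP_fdecab_lc.main L M hM hE
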